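import Pool.Agent.U167.SA.Stm
import Pool.Agent.H981R2.TP.Plane2

/-!
Project SA, package EX: the exact formula for the slit strip of left width one gives the sharp
asymptotics of `PP G1 {(1,0)} n`.
-/

set_option autoImplicit false

namespace Pool.Agent.U606.SA

open H974 Filter Topology
open Pool.Agent.U167.SA
open Pool.Agent.H988R2.Perc (Conf OpenAdj perc)
open Pool.Agent.H981R2.TP (rising rising_pos tipVal ratio_tendsto)
open Pool.Agent.H981R2.TP.PL

/-- exchange of horizontal and vertical labels -/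
def flipE : Pool.Agent.H988R2.Perc.Edge ≃ Pool.Agent.H988R2.Perc.Edge where
  toFun e := (e.1, e.2.1, !e.2.2)
  invFun e := (e.1, e.2.1, !e.2.2)
  left_inv e := by simp
  right_inv e := by simp

/-- the relabelled configuration -/
def fl (ω : Conf) : Conf := fun i => ω (flipE.symm i)

theorem fl_true (ω : Conf) (a b : ℤ) : fl ω (a, b, true) = ω (a, b, false) := rfl
theorem fl_false (ω : Conf) (a b : ℤ) : fl ω (a, b, false) = ω (a, b, true) := rfl

theorem adj_iff (ω : Conf) (x y : ℤ × ℤ) :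
    Adj ({e : Edg | ω e = true} ∩ G1) x y ↔
      SlitAdj (fl ω) x y ∧ 0 ≤ x.1 - x.2 ∧ 0 ≤ y.1 - y.2 := by
  constructor
  · rintro ⟨⟨a, b, c⟩, ⟨ho, hg⟩, h⟩
    unfold G1 at hg
    simp only [Set.mem_ofPred_eq] at ho hg
    unfold col ht at hg
    cases c
    · simp only [src_mk, tgt_false] at h hg
      rcases h with ⟨rfl, rfl⟩ | ⟨rfl, rfl⟩
      · refine ⟨⟨?_, hg.2.2⟩, hg.1, hg.2.1⟩
        exact Or.inr (Or.inr (Or.inl ⟨rfl, by rw [fl_true]; exact ho⟩))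
      · refine ⟨⟨?_, ?_⟩, hg.2.1, hg.1⟩
        · exact Or.inr (Or.inr (Or.inr ⟨rfl, by rw [fl_true]; exact ho⟩))
        · rintro ⟨h1, h2, h3⟩
          exact hg.2.2 ⟨h2, h1, h3.symm⟩
    · simp only [src_mk, tgt_true] at h hg
      rcases h with ⟨rfl, rfl⟩ | ⟨rfl, rfl⟩
      · refine ⟨⟨?_, hg.2.2⟩, hg.1, hg.2.1⟩
        exact Or.inl ⟨rfl, by rw [fl_false]; exact ho⟩
      · refine ⟨⟨?_, ?_⟩, hg.2.1, hg.1⟩
        · exact Or.inr (Or.inl ⟨rfl, by rw [fl_false]; exact ho⟩)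
        · rintro ⟨h1, h2, h3⟩
          exact hg.2.2 ⟨h2, h1, h3.symm⟩
  · rintro ⟨⟨h, hs⟩, hx, hy⟩
    obtain ⟨x1, x2⟩ := x
    obtain ⟨y1, y2⟩ := y
    simp only at hs hx hy
    rcases h with ⟨h, ho⟩ | ⟨h, ho⟩ | ⟨h, ho⟩ | ⟨h, ho⟩
    · simp only [Prod.mk.injEq] at h
      obtain ⟨rfl, rfl⟩ := h
      rw [fl_false] at ho
      refine ⟨(x1, y2, true), ⟨ho, ?_⟩, Or.inl ⟨rfl, rfl⟩⟩
      exact ⟨hx, hy, hs⟩
    · simp only [Prod.mk.injEq] at h
      obtain ⟨rfl, rfl⟩ := h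
      rw [fl_false] at ho
      refine ⟨(y1, x2, true), ⟨ho, ?_⟩, Or.inr ⟨rfl, rfl⟩⟩
      exact ⟨hy, hx, fun h => hs ⟨h.2.1, h.1, h.2.2.symm⟩⟩
    · simp only [Prod.mk.injEq] at h
      obtain ⟨rfl, rfl⟩ := h
      rw [fl_true] at ho
      refine ⟨(y1, x2, false), ⟨ho, ?_⟩, Or.inl ⟨rfl, rfl⟩⟩
      exact ⟨hx, hy, hs⟩
    · simp only [Prod.mk.injEq] at h
      obtain ⟨rfl, rfl⟩ := h
      rw [fl_true] at ho
      refine ⟨(x1, y2, false), ⟨ho, ?_⟩, Or.inr ⟨rfl, rfl⟩⟩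
      exact ⟨hy, hx, fun h => hs ⟨h.2.1, h.1, h.2.2.symm⟩⟩

/-- the event -/
def EV (n : ℤ) : Set Conf :=
  {ω | ∃ u ∈ ({((1:ℤ), (0:ℤ))} : Set Vtx), ∃ v, col v = n ∧ Reach ({e : Edg | ω e = true} ∩ G1) u v}

theorem ev_eq (r : ℕ) : EV (1 + r) = (fun ω : Conf => fun i => ω (flipE.symm i)) ⁻¹' StripArm 1 r := by
  ext ω
  constructor
  · rintro ⟨u, hu, y, h3, h4⟩
    obtain rfl : u = ((1:ℤ), (0:ℤ)) := hu
    have key : ∀ z, Reach ({e : Edg | ω e = true} ∩ G1) ((1:ℤ), (0:ℤ)) z →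
        (Relation.ReflTransGen (SAdj 1 r (fl ω)) ((1:ℤ), (0:ℤ)) z ∧ z.1 - z.2 ≤ 1 + r) ∨
          ∃ y : ℤ × ℤ, y.1 - y.2 = 1 + r ∧
            Relation.ReflTransGen (SAdj 1 r (fl ω)) ((1:ℤ), (0:ℤ)) y := by
      intro z hz
      induction hz with
      | refl => left; exact ⟨Relation.ReflTransGen.refl, by simp⟩
      | tail hpq hqr ih =>
        rename_i s t
        rcases ih with ⟨i1, i2⟩ | i3
        · by_cases hq : s.1 - s.2 = 1 + r
          · right; exact ⟨s, hq, i1⟩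
          · left
            obtain ⟨e1, e2, e3⟩ := (adj_iff ω s t).mp hqr
            have hs := (col_step e1.1).1
            have hr : t.1 - t.2 ≤ 1 + r := by omega
            exact ⟨i1.tail ⟨e1, by push_cast; omega, i2, by push_cast; omega, hr⟩, hr⟩
        · right; exact i3
    rcases key y h4 with ⟨h5, _⟩ | ⟨y', h5, h6⟩
    · exact ⟨y, h3, h5⟩
    · exact ⟨y', h5, h6⟩
  · rintro ⟨y, h3, h4⟩
    refine ⟨((1:ℤ), (0:ℤ)), rfl, y, h3, ?_⟩
    refine rtg_mono (fun a b hab => ?_) h4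
    obtain ⟨e1, e2, e3, e4, e5⟩ := hab
    push_cast at e2 e4
    exact (adj_iff ω a b).mpr ⟨e1, by omega, by omega⟩

theorem ev_exact {r : ℕ} (hr : Even r) (hr0 : 0 < r) : percE.real (EV (1 + r)) = tipVal 1 r := by
  rw [ev_eq r]
  have h1 := perc_map flipE (StripArm 1 r)
  have h2 : percE = perc := rfl
  rw [h2]
  exact h1.trans (strip_exact (by decide) hr hr0)

theorem pp_exact (h : PercStm) {r : ℕ} (hr : Even r) (hr0 : 0 < r) :
    PP G1 {((1:ℤ), (0:ℤ))} (1 + r) = tipVal 1 r :=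
  (h G1 {((1:ℤ), (0:ℤ))} (1 + r)).trans (ev_exact hr hr0)

/-- the constant -/
noncomputable def cst : ℝ := 4/3 * (Real.Gamma (2/3) / Real.Gamma (1/3))

theorem tip_asymp {r : ℕ → ℕ} (tr : Tendsto r atTop atTop)
    (hr : ∀ n, |((r n : ℕ) : ℝ) - n| ≤ 2) :
    Tendsto (fun n : ℕ => tipVal 1 (r n) * (n:ℝ)^((1:ℝ)/3)) atTop (𝓝 cst) := by
  have cn : Tendsto (fun n : ℕ => (n:ℝ)) atTop atTop := tendsto_natCast_atTop_atTop
  have ts : Tendsto (fun n => 1 + r n) atTop atTop :=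
    tendsto_atTop_mono (fun n => Nat.le_add_left _ _) tr
  have h2 := (ratio_tendsto (1/3) (by norm_num)).comp tr
  have g1 : 0 < Real.Gamma (1/2) := Real.Gamma_pos_of_pos (by norm_num)
  have g2 : 0 < Real.Gamma (2/3) := Real.Gamma_pos_of_pos (by norm_num)
  have g3 : 0 < Real.Gamma (1/3) := Real.Gamma_pos_of_pos (by norm_num)
  have hg : Real.Gamma (1/2) / Real.Gamma (2/3) ≠ 0 := (div_pos g1 g2).ne'
  have h3 := ((ratio_tendsto (2/3) (by norm_num)).comp ts).inv₀ hg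
  have h4 := (h2.mul h3).const_mul (4/3)
  have e : 4/3 * (Real.Gamma (1/2) / Real.Gamma (1/3) * (Real.Gamma (1/2) / Real.Gamma (2/3))⁻¹) =
      cst := by
    unfold cst
    field_simp
  rw [e] at h4
  have q1 := (ratio_one (x' := fun n => (r n : ℝ)) cn 2 hr).inv₀ one_ne_zero
  have q2 := (ratio_one (x' := fun n => ((1 + r n : ℕ) : ℝ)) cn 3 (fun n => by
    have a := abs_le.mp (hr n)
    rw [abs_le]
    push_cast
    constructor <;> linarith [a.1, a.2])).inv₀ one_ne_zero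
  have q3 := (q1.mul q2).rpow_const (p := (1:ℝ)/6) (Or.inl (by norm_num))
  have e4 : (((1:ℝ)⁻¹ * 1⁻¹))^((1:ℝ)/6) = 1 := by norm_num
  rw [e4] at q3
  have h6 := h4.mul q3
  rw [mul_one] at h6
  refine h6.congr' ?_
  filter_upwards [eventually_gt_atTop 0, tr.eventually_gt_atTop 0] with n n1 n2
  simp only [Function.comp_apply]
  have x0 : (0:ℝ) < r n := by exact_mod_cast n2
  have y0 : (0:ℝ) < ((1 + r n : ℕ) : ℝ) := by positivity
  have N0 : (0:ℝ) < n := by exact_mod_cast n1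
  have e1 : ((2/3:ℝ) - 1/2) = 1/6 := by norm_num
  have e2 : ((1/3:ℝ) - 1/2) = -(1/6) := by norm_num
  rw [e1, e2, Real.rpow_neg x0.le]
  have e5 : (((r n : ℝ) / n)⁻¹ * (((1 + r n : ℕ) : ℝ) / n)⁻¹)^((1:ℝ)/6) =
      (n:ℝ)^((1:ℝ)/3) / ((r n : ℝ)^((1:ℝ)/6) * (((1 + r n : ℕ) : ℝ))^((1:ℝ)/6)) := by
    rw [inv_div, inv_div, Real.mul_rpow (by positivity) (by positivity),
      Real.div_rpow N0.le x0.le, Real.div_rpow N0.le y0.le]
    have e6 : (n:ℝ)^((1:ℝ)/3) = (n:ℝ)^((1:ℝ)/6) * (n:ℝ)^((1:ℝ)/6) := by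
      rw [← Real.rpow_add N0]; norm_num
    rw [e6]
    have p1 : (0:ℝ) < (r n : ℝ)^((1:ℝ)/6) := Real.rpow_pos_of_pos x0 _
    have p2 : (0:ℝ) < (((1 + r n : ℕ) : ℝ))^((1:ℝ)/6) := Real.rpow_pos_of_pos y0 _
    field_simp
  rw [e5]
  have p1 : (0:ℝ) < (r n : ℝ)^((1:ℝ)/6) := Real.rpow_pos_of_pos x0 _
  have p2 : (0:ℝ) < (((1 + r n : ℕ) : ℝ))^((1:ℝ)/6) := Real.rpow_pos_of_pos y0 _
  have f1 : rising (2/3) 1 = 2/3 := by unfold rising; simp
  have f2 : rising (1/2) 1 = 1/2 := by unfold rising; simp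
  unfold tipVal
  rw [f1, f2]
  have r2 := (rising_pos (by norm_num : (0:ℝ) < 1/2) (r n)).ne'
  have r3 := (rising_pos (by norm_num : (0:ℝ) < 1/2) (1 + r n)).ne'
  have r4 := (rising_pos (by norm_num : (0:ℝ) < 2/3) (1 + r n)).ne'
  generalize (r n : ℝ)^((1:ℝ)/6) = P1 at *
  generalize (((1 + r n : ℕ) : ℝ))^((1:ℝ)/6) = P2 at *
  generalize rising (1/2) (1 + r n) = R3 at *
  generalize rising (2/3) (1 + r n) = R4 at *
  generalize rising (1/2) (r n) = R2 at *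
  generalize (n:ℝ)^((1:ℝ)/3) = NN at *
  have p1' := p1.ne'
  have p2' := p2.ne'
  field_simp
  ring

/-- **EX** -/
theorem t_EX (h : PercStm) (hb : PPBStm) : ExStm := by
  have anti := hb.2.2.2.2.1
  refine ⟨cst, ?_, ?_⟩
  · have g2 : 0 < Real.Gamma (2/3) := Real.Gamma_pos_of_pos (by norm_num)
    have g3 : 0 < Real.Gamma (1/3) := Real.Gamma_pos_of_pos (by norm_num)
    unfold cst
    positivity
  · have tl : Tendsto (fun n : ℕ => 2 * (n / 2)) atTop atTop := by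
      refine tendsto_atTop_mono (f := fun n => n - 1) (fun n => by show n - 1 ≤ 2 * (n/2); omega)
        (tendsto_sub_atTop_nat 1)
    have tu : Tendsto (fun n : ℕ => 2 * ((n - 1) / 2)) atTop atTop := by
      refine tendsto_atTop_mono (f := fun n => n - 2) (fun n => by
        show n - 2 ≤ 2 * ((n-1)/2); omega) (tendsto_sub_atTop_nat 2)
    have hl := tip_asymp tl (fun n => by
      have e : |(((2*(n/2) : ℕ) : ℤ) : ℤ) - (n : ℤ)| ≤ 2 := by
        rw [abs_le]; omega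
      exact_mod_cast e)
    have hu := tip_asymp tu (fun n => by
      have e : |(((2*((n-1)/2) : ℕ) : ℤ) : ℤ) - (n : ℤ)| ≤ 2 := by
        rw [abs_le]; omega
      exact_mod_cast e)
    refine tendsto_of_tendsto_of_tendsto_of_le_of_le' hl hu ?_ ?_
    · filter_upwards [eventually_ge_atTop 3] with n n2
      refine mul_le_mul_of_nonneg_right ?_ (by positivity)
      rw [← pp_exact h (r := 2 * (n / 2)) (even_two_mul _) (by omega)]
      refine anti G1 _ n _ ?_ ?_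
      · intro v hv
        obtain rfl : v = ((1:ℤ), (0:ℤ)) := hv
        show (1:ℤ) - 0 ≤ n
        omega
      · push_cast
        omega
    · filter_upwards [eventually_ge_atTop 3] with n n2
      refine mul_le_mul_of_nonneg_right ?_ (by positivity)
      rw [← pp_exact h (r := 2 * ((n - 1) / 2)) (even_two_mul _) (by omega)]
      refine anti G1 _ _ n ?_ ?_
      · intro v hv
        obtain rfl : v = ((1:ℤ), (0:ℤ)) := hv
        show (1:ℤ) - 0 ≤ _
        push_cast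
        omega
      · have : (((2 * ((n - 1) / 2) : ℕ)) : ℤ) + 1 ≤ n := by omega
        linarith

end Pool.Agent.U606.SA
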